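import Pool.Agent.K1H36.Perm.Limit

/-!
# MP_b575e9_co: the vanishing probability of the permanent of a random matrix

Outline of the proof.  Let `q = |F|` and let `β m` be the probability that all maximal permanental
minors of a uniform `(m - 1) × m` matrix vanish; expanding along one row,
`Pr[per A_n = 0] = 1/q + (1 - 1/q) β n`.  For a uniform `(m + 1) × m` matrix `R` let `p_a` be the
maximal permanental minor without row `a`, and let `G = q #{a : p_a = 0} - (m + 1)`, which is the
sum over `a` and over `s ≠ 0` of `χ (s p_a)` for a nontrivial additive character `χ`.  As
`G ≥ -(m + 1)`, the inequality `G³ + (m + 1) G² ≥ q (q - 1)² (m + 1)³ [all p_a = 0]` holds, and the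
expectations of `G²` and `G³` can be computed: for `a ≠ b` the expectation of
`χ (s p_a + t p_b)` is `β m`, and for distinct `a, b, c` the expectation of
`χ (s p_a + t p_b + u p_c)` is an average of the values `X ^ (3/2)`, where `X` is the proportion of
radical vectors of a random symmetric form with zero diagonal (this uses that `q` is odd), while
`β m` is the average of `X`.  Hence
`β (m + 1) ≤ β m - (1 - 1/q)² (β m - z m) + 3 / (m + 1)` where `z m` is the probability that all
maximal permanental minors of a uniform `(m - 2) × m` matrix vanish.  Finally `β m - z m` is bounded
below in terms of `β m`, by comparing the probabilities of first failure at the successive rows, and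
so `β m → 0`.
-/

namespace Pool.Agent.Results.MP_b575e9_co.PermanentVanishing

open Filter Topology

/-- **The permanent of a random matrix over a finite field of odd order.** For every finite field
`F` of odd order `q`, the proportion of the `n × n` matrices over `F` whose permanent is `0` tends
to `1 / q` as `n → ∞`. -/
theorem result (F : Type*) [Field F] [Fintype F] [DecidableEq F] (hF : Odd (Fintype.card F)) :
    Tendsto (fun n : ℕ =>
      ((Finset.univ.filter fun A : Matrix (Fin n) (Fin n) F => A.permanent = 0).card : ℝ) /
        (Fintype.card (Matrix (Fin n) (Fin n) F) : ℝ)) atTop (𝓝 (1 / (Fintype.card F : ℝ))) :=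
  Pool.Agent.K1H36.Perm.main F hF

end Pool.Agent.Results.MP_b575e9_co.PermanentVanishing
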